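import Pool.Agent.Helper9.SK.St
import Mathlib

/-!
# Project SK, module WEY: Weyl differencing for `f(n) = n^2 + n + 1`
-/

set_option autoImplicit false

noncomputable section

namespace Pool.Agent.Helper29.SK

open Finset ArithmeticFunction MeasureTheory
open Pool.Agent.Helper9.SK
open Pool.Agent.Helper48.BK (ex th Pz Vz lz gs Sx Apx)
open Pool.Agent.Helper60.GP (IsB II Err JJ)
open Pool.Agent.Helper15.AB (Th)
open Pool.Agent.Helper58.SU (dsc StWinu)

private lemma ex_add_WEY (s t : ℝ) : ex (s + t) = ex s * ex t := by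
  unfold ex
  rw [← Complex.exp_add]
  congr 1
  push_cast
  ring

private lemma norm_ex_WEY (t : ℝ) : ‖ex t‖ = 1 := by
  unfold ex
  have : (2 * Real.pi * t * Complex.I : ℂ) = ((2 * Real.pi * t : ℝ) : ℂ) * Complex.I := by
    push_cast
    ring
  rw [this, Complex.norm_exp_ofReal_mul_I]

private lemma conj_ex_WEY (t : ℝ) : (starRingEnd ℂ) (ex t) = ex (-t) := by
  unfold ex
  rw [← Complex.exp_conj]
  congr 1
  simp only [map_mul, Complex.conj_I, Complex.conj_ofReal]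
  have h2 : (starRingEnd ℂ) 2 = 2 := Complex.conj_ofNat 2
  rw [h2]
  push_cast
  ring

private lemma sq_sum_WEY (a : ℕ → ℂ) (M : ℕ) : ‖∑ n ∈ Icc 1 M, a n‖ ^ 2 =
    ∑ n ∈ Icc 1 M, ‖a n‖ ^ 2 +
      2 * ∑ h ∈ Icc 1 M, (∑ m ∈ Ioc 0 (M - h), a (m + h) * (starRingEnd ℂ) (a m)).re := by
  induction M with
  | zero => simp
  | succ M ih =>
    have hS : ∑ n ∈ Icc 1 (M + 1), a n = ∑ n ∈ Icc 1 M, a n + a (M + 1) :=
      Finset.sum_Icc_succ_top (by omega) a
    have hN : ∑ n ∈ Icc 1 (M + 1), ‖a n‖ ^ 2 = ∑ n ∈ Icc 1 M, ‖a n‖ ^ 2 + ‖a (M + 1)‖ ^ 2 :=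
      Finset.sum_Icc_succ_top (by omega) (fun n => ‖a n‖ ^ 2)
    have hH : ∑ h ∈ Icc 1 (M + 1), (∑ m ∈ Ioc 0 (M + 1 - h), a (m + h) * (starRingEnd ℂ) (a m)).re =
        ∑ h ∈ Icc 1 M, (∑ m ∈ Ioc 0 (M - h), a (m + h) * (starRingEnd ℂ) (a m)).re +
          (a (M + 1) * (starRingEnd ℂ) (∑ n ∈ Icc 1 M, a n)).re := by
      rw [Finset.sum_Icc_succ_top (by omega)]
      have h0 : (∑ m ∈ Ioc 0 (M + 1 - (M + 1)),
          a (m + (M + 1)) * (starRingEnd ℂ) (a m)).re = 0 := by simp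
      rw [h0, add_zero]
      have h1 : ∀ h ∈ Icc 1 M, (∑ m ∈ Ioc 0 (M + 1 - h), a (m + h) * (starRingEnd ℂ) (a m)).re =
          (∑ m ∈ Ioc 0 (M - h), a (m + h) * (starRingEnd ℂ) (a m)).re +
            (a (M + 1) * (starRingEnd ℂ) (a (M + 1 - h))).re := by
        intro h hh
        rw [Finset.mem_Icc] at hh
        have e1 : M + 1 - h = (M - h) + 1 := by omega
        rw [e1, Finset.sum_Ioc_succ_top (Nat.zero_le _), Complex.add_re]
        have e2 : M - h + 1 + h = M + 1 := by omega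
        rw [e2]
      rw [Finset.sum_congr rfl h1, Finset.sum_add_distrib]
      congr 1
      rw [map_sum, Finset.mul_sum, Complex.re_sum]
      refine Finset.sum_nbij' (fun h => M + 1 - h) (fun h => M + 1 - h) ?_ ?_ ?_ ?_ ?_
      · intro h hh
        rw [Finset.mem_Icc] at hh ⊢
        omega
      · intro h hh
        rw [Finset.mem_Icc] at hh ⊢
        omega
      · intro h hh
        rw [Finset.mem_Icc] at hh
        show M + 1 - (M + 1 - h) = h
        omega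
      · intro h hh
        rw [Finset.mem_Icc] at hh
        show M + 1 - (M + 1 - h) = h
        omega
      · intro h hh
        rfl
    rw [hS, hN, hH]
    have key : ‖∑ n ∈ Icc 1 M, a n + a (M + 1)‖ ^ 2 = ‖∑ n ∈ Icc 1 M, a n‖ ^ 2 +
        ‖a (M + 1)‖ ^ 2 + 2 * (a (M + 1) * (starRingEnd ℂ) (∑ n ∈ Icc 1 M, a n)).re := by
      generalize ∑ n ∈ Icc 1 M, a n = z
      generalize a (M + 1) = w
      rw [← Complex.normSq_eq_norm_sq, ← Complex.normSq_eq_norm_sq, ← Complex.normSq_eq_norm_sq,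
        Complex.normSq_apply, Complex.normSq_apply, Complex.normSq_apply]
      simp only [Complex.add_re, Complex.add_im, Complex.mul_re, Complex.conj_re, Complex.conj_im]
      ring
    rw [key, ih]
    ring

theorem hWEY (hGeo1 : Pool.Agent.Helper48.BK.StGeo1) : StWey := by
  obtain ⟨hg1, hg2, -, -⟩ := hGeo1
  intro M γ
  rw [sq_sum_WEY (fun n => ex (γ * (ff n : ℕ))) M]
  have hN : ∑ n ∈ Icc 1 M, ‖ex (γ * (ff n : ℕ))‖ ^ 2 = M := by
    simp [norm_ex_WEY]
  rw [hN]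
  refine add_le_add le_rfl (mul_le_mul_of_nonneg_left ?_ (by norm_num))
  refine Finset.sum_le_sum ?_
  intro h hh
  rw [Finset.mem_Icc] at hh
  refine le_trans (Complex.re_le_norm _) ?_
  have hterm : ∀ m ∈ Ioc 0 (M - h), ex (γ * (ff (m + h) : ℕ)) *
      (starRingEnd ℂ) (ex (γ * (ff m : ℕ))) =
      ex (γ * ((h : ℝ) ^ 2 + h)) * ex ((m : ℝ) * (2 * h * γ)) := by
    intro m _
    rw [conj_ex_WEY, ← ex_add_WEY, ← ex_add_WEY]
    congr 1
    unfold ff
    push_cast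
    ring
  rw [Finset.sum_congr rfl hterm, ← Finset.mul_sum, norm_mul, norm_ex_WEY, one_mul]
  have h3 := hg1 0 (M - h) (2 * h * γ)
  rw [zero_add] at h3
  refine le_trans h3 ?_
  refine hg2 _ _ _ (Nat.cast_nonneg _) ?_
  exact_mod_cast Nat.sub_le M h

end Pool.Agent.Helper29.SK
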